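import Pool.Agent.Y645.UP.Stm

/-! Project UP: dictionary between sets and points. -/

set_option autoImplicit false

namespace Pool.Agent.Y927.UP

open MvPolynomial Module Pool.Agent.Y645.UL Pool.Agent.Y645.UM Pool.Agent.Y645.UP

theorem t_NULLp : Pool.Agent.Y645.UP.S_NULLp := by
  intro k L J _ _ _ _ _ x f
  constructor
  · intro hf
    by_contra h0
    have hg : f ∉ RingHom.ker (aeval x : MvPolynomial J k →ₐ[k] L) := by
      rw [RingHom.mem_ker]
      exact h0
    have hp : (RingHom.ker (aeval x : MvPolynomial J k →ₐ[k] L)).IsPrime :=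
      RingHom.ker_isPrime _
    rw [← hp.radical, ← vanishingIdeal_zeroLocus_eq_radical (K := k), mem_vanishingIdeal_iff] at hg
    push Not at hg
    obtain ⟨z, hz, hgz⟩ := hg
    rw [mem_zeroLocus_iff] at hz
    refine hgz ?_
    have h1 := hf z (by
      intro h hh
      have h2 := hz h (by rw [RingHom.mem_ker]; exact hh)
      simpa using h2)
    simpa using h1
  · intro hf p hp
    exact hp f hf

theorem t_DIMp : Pool.Agent.Y645.UP.S_DIMp := by
  intro k L J _ _ _ _ y A h
  classical
  set φ : MvPolynomial J k →ₐ[k] L := aeval y with hφ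
  let ψ : (MvPolynomial J k ⧸ vanp A) →ₐ[k] L :=
    Ideal.Quotient.liftₐ (vanp A) φ (fun a ha => (h a).1 ha)
  have hψ : ∀ f, ψ (Ideal.Quotient.mk (vanp A) f) = φ f := fun f => rfl
  have hinj : Function.Injective ψ := by
    rw [injective_iff_map_eq_zero]
    intro x hx
    obtain ⟨f, rfl⟩ := Ideal.Quotient.mk_surjective x
    rw [hψ] at hx
    exact Ideal.Quotient.eq_zero_iff_mem.2 ((h f).2 hx)
  obtain ⟨B, hB1, hB2, -⟩ := exists_basis (k := k) y
  have hle : Algebra.trdeg k (MvPolynomial J k ⧸ vanp A) ≤ (td k y : ℕ) := by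
    unfold Algebra.trdeg
    apply ciSup_le'
    rintro ⟨s, hs⟩
    apply Cardinal.card_le_of
    intro t
    have h0 : AlgebraicIndependent k
        (fun i : t => ((i : s) : MvPolynomial J k ⧸ vanp A)) :=
      AlgebraicIndependent.comp hs (fun i : t => (i : s)) Subtype.val_injective
    have h1 : AlgebraicIndependent k
        (fun i : t => ψ ((i : s) : MvPolynomial J k ⧸ vanp A)) := h0.map' hinj
    have h2 := card_le_td (x := y) h1 (by
      intro i
      obtain ⟨f, hf⟩ := Ideal.Quotient.mk_surjective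
        ((i : s) : MvPolynomial J k ⧸ vanp A)
      rw [← hf, hψ]
      have h3 : φ f ∈ Algebra.adjoin k (Set.range y) := by
        rw [Algebra.adjoin_range_eq_range_aeval]
        exact ⟨f, rfl⟩
      exact isAlgebraic_algebraMap (⟨φ f, h3⟩ : Algebra.adjoin k (Set.range y)))
    rwa [Fintype.card_coe] at h2
  have hge : ((td k y : ℕ) : Cardinal) ≤
      Algebra.trdeg k (MvPolynomial J k ⧸ vanp A) := by
    rw [← hB1]
    have h1 : AlgebraicIndependent k
        (fun b : B => Ideal.Quotient.mk (vanp A) (X (b : J))) := by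
      apply AlgebraicIndependent.of_comp ψ
      convert hB2 using 1
      funext b
      change φ (X (b : J)) = _
      rw [hφ, aeval_X]
    have h2 := h1.cardinalMk_le_trdeg
    rwa [Cardinal.mk_coe_finset] at h2
  unfold dimP
  rw [le_antisymm hle hge, Cardinal.toNat_natCast]

theorem t_ISOp : Pool.Agent.Y645.UP.S_ISOp := by
  intro k L J _ _ _ _ D x A hA
  have h1 : ∀ (i : J) (c : k), (∀ p ∈ A, p i = c) ↔ x i = algebraMap k L c := by
    intro i c
    have h3 := hA (X i - C c)
    have h4 : (X i - C c : MvPolynomial J k) ∈ vanp A ↔ ∀ p ∈ A, p i = c := by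
      change (∀ p ∈ A, eval p (X i - C c) = 0) ↔ _
      refine forall_congr' fun p => forall_congr' fun _ => ?_
      rw [map_sub, eval_X, eval_C, sub_eq_zero]
    rw [← h4, h3, map_sub, aeval_X, aeval_C, sub_eq_zero]
  have h2 : ∀ (i j : J) (f : MvPolynomial (Fin 2) k),
      (∀ p ∈ A, aeval ![p i, p j] f = 0) ↔ aeval ![x i, x j] f = 0 := by
    intro i j f
    have h3 := hA (rename ![i, j] f)
    have h4 : (rename ![i, j] f : MvPolynomial J k) ∈ vanp A ↔
        ∀ p ∈ A, aeval ![p i, p j] f = 0 := by
      change (∀ p ∈ A, eval p (rename ![i, j] f) = 0) ↔ _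
      refine forall_congr' fun p => forall_congr' fun _ => ?_
      rw [eval_rename]
      have h5 : p ∘ ![i, j] = ![p i, p j] := by
        funext t
        fin_cases t <;> rfl
      rw [h5, aeval_def, Algebra.algebraMap_self, eval₂_id]
    rw [← h4, h3, aeval_rename]
    have h5 : x ∘ ![i, j] = ![x i, x j] := by
      funext t
      fin_cases t <;> rfl
    rw [h5]
  have h6 : ∀ i : J, (¬ ∃ c ∈ D.C, ∀ p ∈ A, p i = c) ↔ ¬ SpecAt D (x i) := by
    intro i
    refine not_congr ?_
    unfold SpecAt
    refine exists_congr fun c => and_congr_right fun _ => h1 i c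
  unfold isoSetP isoRk
  refine Nat.card_congr (Quot.congr (Equiv.subtypeEquivRight h6) ?_)
  intro i j
  unfold Pool.Agent.Y645.UM.Rel
  refine exists_congr fun N => and_congr_right fun _ => ?_
  exact h2 i j (D.Φ N)

end Pool.Agent.Y927.UP
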